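import Pool.Agent.Q168.RC.Curve
import Pool.Agent.Y718.FQ.Vals

/-!
# Dominated images, and the class of good sets (helper168)
-/

set_option autoImplicit false

open MvPolynomial Pool.Agent.Y718.FQ

namespace Pool.Agent.Q168.RC

variable {K : Type} [Field K]

/-- the points of `S` at which all polynomials vanish which vanish on the image of `Y` -/
def Cl {σ τ : Type} (Y : Set (σ → K)) (a : τ → MvPolynomial σ K) (c : MvPolynomial σ K)
    (S : Set (τ → K)) : Set (τ → K) :=
  {z | z ∈ S ∧ ∀ g : MvPolynomial τ K, (∀ x ∈ Y, eval x c ≠ 0 →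
    eval (fun j => eval x (a j) / eval x c) g = 0) → eval z g = 0}

theorem CP.image {O : Set K} {σ τ : Type} {Y : Set (σ → K)} (h : CP O Y)
    (a : τ → MvPolynomial σ K) (c : MvPolynomial σ K) {S : Set (τ → K)}
    (h1 : ∀ x ∈ Y, eval x c ≠ 0 → (fun j => eval x (a j) / eval x c) ∈ S)
    (hne : ∃ x ∈ Y, eval x c ≠ 0) : CP O (Cl Y a c S) := by
  have hmem : ∀ x ∈ Y, eval x c ≠ 0 → (fun j => eval x (a j) / eval x c) ∈ Cl Y a c S :=
    fun x hx hc => ⟨h1 x hx hc, fun g hg => hg x hx hc⟩
  refine ⟨?_, ?_, ?_⟩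
  · obtain ⟨x, hx, hc⟩ := hne
    exact ⟨_, hmem x hx hc⟩
  · intro g k hgk
    obtain ⟨G, hG⟩ := hom_mv a c g (le_max_left _ k.totalDegree)
    obtain ⟨H, hH⟩ := hom_mv a c k (le_max_right g.totalDegree _)
    rcases h.irr (c * G) (c * H) (fun x hx => by
      rw [map_mul, map_mul]
      by_cases hc : eval x c = 0
      · exact Or.inl (by rw [hc, zero_mul])
      · rcases hgk _ (hmem x hx hc) with h3 | h3
        · exact Or.inl (by rw [hG x hc, h3]; ring)
        · exact Or.inr (by rw [hH x hc, h3]; ring)) with h4 | h4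
    · refine Or.inl fun z hz => hz.2 g fun x hx hc => ?_
      have := h4 x hx
      rw [map_mul, hG x hc, mul_eq_zero, mul_eq_zero] at this
      exact (this.resolve_left hc).resolve_left (pow_ne_zero _ hc)
    · refine Or.inr fun z hz => hz.2 k fun x hx hc => ?_
      have := h4 x hx
      rw [map_mul, hH x hc, mul_eq_zero, mul_eq_zero] at this
      exact (this.resolve_left hc).resolve_left (pow_ne_zero _ hc)
  · rintro p q hpq ⟨z, hz, hqz⟩
    obtain ⟨P, hP⟩ := hom_mv a c p (le_max_left _ q.totalDegree)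
    obtain ⟨Q, hQ⟩ := hom_mv a c q (le_max_right p.totalDegree _)
    have h5 : ∃ x ∈ Y, eval x c ≠ 0 ∧ eval (fun j => eval x (a j) / eval x c) q ≠ 0 := by
      by_contra hcon
      push Not at hcon
      exact hqz (hz.2 q hcon)
    obtain ⟨y, hy, hcy, hqy⟩ := h5
    obtain ⟨b, hb⟩ := h.const (P * c) (Q * c) (fun x hx hx0 => by
      rw [map_mul, mul_ne_zero_iff] at hx0
      have h6 := pow_ne_zero (max p.totalDegree q.totalDegree) hx0.2
      rw [map_mul, map_mul, mul_div_mul_right _ _ hx0.2, hP x hx0.2, hQ x hx0.2,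
        mul_div_mul_left _ _ h6]
      refine hpq _ (hmem x hx hx0.2) fun h0 => hx0.1 ?_
      rw [hQ x hx0.2, h0, mul_zero]) ⟨y, hy, by
        rw [map_mul, hQ y hcy]
        exact mul_ne_zero (mul_ne_zero (pow_ne_zero _ hcy) hqy) hcy⟩
    refine ⟨b, fun w hw => ?_⟩
    have h7 := hw.2 (p - C b * q) (fun x hx hc => by
      have h8 := hb x hx
      rw [map_mul, map_mul, hP x hc, hQ x hc] at h8
      have h6 := pow_ne_zero (max p.totalDegree q.totalDegree) hc
      rw [map_sub, map_mul, eval_C]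
      apply mul_left_cancel₀ h6
      apply mul_right_cancel₀ hc
      linear_combination h8)
    rw [map_sub, map_mul, eval_C, sub_eq_zero] at h7
    exact h7

theorem FCP.image {O : Set K} {σ τ : Type} {X : Set (σ → K)} (h : FCP O X)
    (a : τ → MvPolynomial σ K) (c : MvPolynomial σ K) {S : Set (τ → K)}
    (h1 : ∀ x ∈ X, eval x c ≠ 0 → (fun j => eval x (a j) / eval x c) ∈ S)
    (h2 : ∀ g : MvPolynomial τ K, (∀ x ∈ X, eval x c ≠ 0 →
      eval (fun j => eval x (a j) / eval x c) g = 0) → ∀ z ∈ S, eval z g = 0) : FCP O S := by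
  classical
  obtain ⟨𝒴, h3, h4, rfl⟩ := h
  refine ⟨(fun Y => Cl Y a c S) '' {Y | Y ∈ 𝒴 ∧ ∃ x ∈ Y, eval x c ≠ 0},
    (h3.subset fun Y hY => hY.1).image _, ?_, ?_⟩
  · rintro _ ⟨Y, ⟨hY, hne⟩, rfl⟩
    exact CP.image (h4 Y hY) a c (fun x hx hc => h1 x ⟨Y, hY, hx⟩ hc) hne
  · apply Set.Subset.antisymm
    · intro z hz
      by_contra hcon
      have h5 : ∀ Y, Y ∈ 𝒴 → ∃ g : MvPolynomial τ K, (∀ x ∈ Y, eval x c ≠ 0 →
          eval (fun j => eval x (a j) / eval x c) g = 0) ∧ eval z g ≠ 0 := by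
        intro Y hY
        by_cases hne : ∃ x ∈ Y, eval x c ≠ 0
        · by_contra hc2
          push Not at hc2
          exact hcon ⟨_, ⟨Y, ⟨hY, hne⟩, rfl⟩, hz, fun g hg => hc2 g hg⟩
        · push Not at hne
          exact ⟨1, fun x hx hc => absurd (hne x hx) hc, by rw [map_one]; exact one_ne_zero⟩
      choose! g hg1 hg2 using h5
      have h6 : eval z (∏ Y ∈ h3.toFinset, g Y) ≠ 0 := by
        rw [map_prod, Finset.prod_ne_zero_iff]
        exact fun Y hY => hg2 Y (h3.mem_toFinset.1 hY)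
      apply h6
      refine h2 _ (fun x hx hc => ?_) z hz
      obtain ⟨Y, hY, hxY⟩ := hx
      rw [map_prod]
      exact Finset.prod_eq_zero (h3.mem_toFinset.2 hY) (hg1 Y hY x hxY hc)
    · rintro z ⟨_, ⟨Y, -, rfl⟩, hz⟩
      exact hz.1

/-- **Good sets** of points with coordinates in the field `K`: the least class of sets which
contains
* the sets with rational curves of unbounded degree (`Curved`);
* the affine spaces and the sets of points `(w, z₁, …, z_n)`, `w ≠ 0`, of the double covers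
  `w² = F(1, z₁, …, z_n)`, where `n ≥ 2` and `F = 0` is a smooth quartic hypersurface (`Blk`);
and is closed under finite unions, finite products, and dominated images: `S` is good if a rational
map `a / c`, defined on a good set `X`, has its values in `S` and each polynomial which vanishes at
these values vanishes on `S`. -/
inductive Good (K : Type) [Field K] : ∀ {σ : Type}, Set (σ → K) → Prop
  | curved {σ : Type} {S : Set (σ → K)} : Curved S → Good K S
  | block {n : ℕ} {S : Set (Fin (n + 1) → K)} : Blk S → Good K S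
  | union {σ : Type} {X Y : Set (σ → K)} : Good K X → Good K Y → Good K (X ∪ Y)
  | prod {ι : Type} [Fintype ι] {σ : ι → Type} {X : ∀ i, Set (σ i → K)} :
      (∀ i, Good K (X i)) →
      Good K {x : (i : ι) × σ i → K | ∀ i, (fun r => x ⟨i, r⟩) ∈ X i}
  | image {σ τ : Type} {X : Set (σ → K)} {S : Set (τ → K)} (a : τ → MvPolynomial σ K)
      (c : MvPolynomial σ K) : Good K X →
      (∀ x ∈ X, eval x c ≠ 0 → (fun j => eval x (a j) / eval x c) ∈ S) →
      (∀ g : MvPolynomial τ K, (∀ x ∈ X, eval x c ≠ 0 →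
        eval (fun j => eval x (a j) / eval x c) g = 0) → ∀ z ∈ S, eval z g = 0) → Good K S

theorem Good.fcp [CharZero K] {O : Set K} (hO : Pool.Agent.TH783.CE.Flat O) (φ : K →+* ℂ)
    {σ : Type} {S : Set (σ → K)} (h : Good K S) : FCP O S := by
  induction h with
  | curved h => exact (h.cp hO).fcp
  | block h => exact h.fcp Pool.Agent.Y48.FQ.seq Pool.Agent.Y349.FQ.mvf Pool.Agent.Y67.FQ.line bd hO φ
  | union _ _ h1 h2 => exact h1.union h2
  | prod _ h => exact FCP.pi Pool.Agent.Y394.FQ.pi h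
  | image a c _ h1 h2 h => exact FCP.image h a c h1 h2

/-- **The set of the values of a rational function at the points of a good set is finite if it is
contained in a flat set.** -/
theorem Good.values_finite [CharZero K] {O : Set K} (hO : Pool.Agent.TH783.CE.Flat O)
    (φ : K →+* ℂ) {σ : Type} {S : Set (σ → K)} (h : Good K S) (p q : MvPolynomial σ K)
    (hpq : ∀ t, (∃ x ∈ S, eval x q ≠ 0 ∧ t = eval x p / eval x q) → t ∈ O) :
    {t | ∃ x ∈ S, eval x q ≠ 0 ∧ t = eval x p / eval x q}.Finite :=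
  (h.fcp hO φ).values p q fun x hx hq => hpq _ ⟨x, hx, hq, rfl⟩

end Pool.Agent.Q168.RC
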