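import Pool.Agent.Q168.RC.CurveDef
import Pool.Agent.Y718.FQ.Stm

/-!
# Flat values on sets with rational curves of unbounded degree (helper168)
-/

set_option autoImplicit false

open MvPolynomial

namespace Pool.Agent.Q168.RC

variable {K : Type} [Field K]

open Pool.Agent.Y718.FQ in
/-- **Rational functions with values in a flat set are constant on a set with rational curves of
unbounded degree.** -/
theorem Curved.cp [CharZero K] {O : Set K} (hO : Pool.Agent.TH783.CE.Flat O) {σ : Type}
    {S : Set (σ → K)} (hS : Curved S) : CP O S where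
  ne := by
    obtain ⟨u, v, hv, h1, -⟩ := hS 0
    by_contra hcon
    rw [Set.not_nonempty_iff_eq_empty] at hcon
    apply hv
    refine Polynomial.funext fun t => ?_
    by_contra ht
    have := h1 t (by simpa using ht)
    rw [hcon] at this
    exact this
  irr := by
    intro g h hgh
    obtain ⟨u, v, hv, h1, h2⟩ := hS (max g.totalDegree h.totalDegree)
    obtain ⟨G, hG⟩ := hom_poly u v g (le_max_left _ h.totalDegree)
    obtain ⟨H, hH⟩ := hom_poly u v h (le_max_right g.totalDegree _)
    have h3 : G * H * v = 0 := by
      refine Polynomial.funext fun t => ?_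
      rw [Polynomial.eval_mul, Polynomial.eval_mul, Polynomial.eval_zero]
      by_cases ht : v.eval t = 0
      · rw [ht, mul_zero]
      · rcases hgh _ (h1 t ht) with h4 | h4
        · rw [hG t ht, h4]; ring
        · rw [hH t ht, h4]; ring
    rcases mul_eq_zero.1 ((mul_eq_zero.1 h3).resolve_right hv) with h4 | h4
    · refine Or.inl (h2 g (le_max_left _ _) fun t ht => ?_)
      have := hG t ht
      rw [h4, Polynomial.eval_zero, eq_comm, mul_eq_zero] at this
      exact this.resolve_left (pow_ne_zero _ ht)
    · refine Or.inr (h2 h (le_max_right _ _) fun t ht => ?_)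
      have := hH t ht
      rw [h4, Polynomial.eval_zero, eq_comm, mul_eq_zero] at this
      exact this.resolve_left (pow_ne_zero _ ht)
  const := by
    rintro p q hpq ⟨z, hz, hqz⟩
    obtain ⟨u, v, hv, h1, h2⟩ := hS (max p.totalDegree q.totalDegree)
    obtain ⟨P, hP⟩ := hom_poly u v p (le_max_left _ q.totalDegree)
    obtain ⟨Q, hQ⟩ := hom_poly u v q (le_max_right p.totalDegree _)
    have hQ0 : Q ≠ 0 := by
      rintro rfl
      apply hqz
      refine h2 q (le_max_right _ _) (fun t ht => ?_) z hz
      have := hQ t ht
      rw [Polynomial.eval_zero, eq_comm, mul_eq_zero] at this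
      exact this.resolve_left (pow_ne_zero _ ht)
    obtain ⟨c, hc⟩ := hO (Q * v) (P * v) (mul_ne_zero hQ0 hv) (fun t ht => by
      rw [Polynomial.eval_mul, mul_ne_zero_iff] at ht
      have h5 := pow_ne_zero (max p.totalDegree q.totalDegree) ht.2
      have h6 : eval (pt u v t) q ≠ 0 := by
        intro h0
        apply ht.1
        rw [hQ t ht.2, h0, mul_zero]
      rw [Polynomial.eval_mul, Polynomial.eval_mul, mul_div_mul_right _ _ ht.2, hP t ht.2,
        hQ t ht.2, mul_div_mul_left _ _ h5]
      exact hpq _ (h1 t ht.2) h6)
    have hc' : P = Polynomial.C c * Q := by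
      apply mul_right_cancel₀ hv
      rw [hc]
      ring
    refine ⟨c, fun x hx => ?_⟩
    have h7 := h2 (p - C c * q) ((totalDegree_sub _ _).trans (max_le_max le_rfl
      ((totalDegree_mul _ _).trans (by rw [totalDegree_C, zero_add])))) (fun t ht => by
        have h8 := pow_ne_zero (max p.totalDegree q.totalDegree) ht
        have h9 := hP t ht
        rw [hc', Polynomial.eval_mul, Polynomial.eval_C, hQ t ht] at h9
        rw [map_sub, map_mul, eval_C]
        apply mul_left_cancel₀ h8
        rw [mul_sub, mul_zero, ← h9]
        ring) x hx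
    rw [map_sub, map_mul, eval_C, sub_eq_zero] at h7
    exact h7

end Pool.Agent.Q168.RC
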