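import Mathlib

/-!
# Sets of points with many rational curves (helper168)

Rational functions with values in a flat set on a set of points which contains rational curves of
arbitrarily large degree.
-/

set_option autoImplicit false

open MvPolynomial

namespace Pool.Agent.Q168.RC

/-- homogenization -/
theorem exists_hom {K R τ : Type} [Field K] [CommRing R] [Algebra K R] (a : τ → R) (c : R)
    (g : MvPolynomial τ K) {D : ℕ} (hD : g.totalDegree ≤ D) :
    ∃ G : R, ∀ f : R →ₐ[K] K, f c ≠ 0 → f G = f c ^ D * eval (fun j => f (a j) / f c) g := by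
  classical
  refine ⟨∑ m ∈ g.support, algebraMap K R (coeff m g) * (∏ i ∈ m.support, a i ^ m i) *
    c ^ (D - m.sum fun _ e => e), fun f hf => ?_⟩
  rw [map_sum, eval_eq, Finset.mul_sum]
  refine Finset.sum_congr rfl fun m hm => ?_
  have h1 : (m.sum fun _ e => e) ≤ D := (le_totalDegree hm).trans hD
  have h2 : ∏ i ∈ m.support, (f (a i) / f c) ^ m i =
      (∏ i ∈ m.support, f (a i) ^ m i) / f c ^ (m.sum fun _ e => e) := by
    rw [Finsupp.sum, ← Finset.prod_pow_eq_pow_sum, ← Finset.prod_div_distrib]
    exact Finset.prod_congr rfl fun i _ => div_pow _ _ _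
  rw [h2, map_mul, map_mul, map_prod, map_pow, AlgHom.commutes, Algebra.algebraMap_self,
    RingHom.id_apply]
  simp only [map_pow]
  obtain ⟨k, hk⟩ := Nat.exists_eq_add_of_le h1
  rw [hk, Nat.add_sub_cancel_left, pow_add]
  have h3 : f c ^ (m.sum fun _ e => e) ≠ 0 := pow_ne_zero _ hf
  field_simp

variable {K : Type} [Field K]

/-- The point with parameter `t` of the rational curve `u / v`. -/
noncomputable def pt {σ : Type} (u : σ → Polynomial K) (v : Polynomial K) (t : K) : σ → K :=
  fun i => (u i).eval t / v.eval t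

/-- The set `S` contains rational curves over `K` which do not lie on hypersurfaces of bounded
degree: for every `D` there is a curve `u / v` with values in `S` such that each polynomial of
degree at most `D` which vanishes on the curve vanishes on `S`. -/
def Curved {σ : Type} (S : Set (σ → K)) : Prop :=
  ∀ D : ℕ, ∃ (u : σ → Polynomial K) (v : Polynomial K), v ≠ 0 ∧
    (∀ t, v.eval t ≠ 0 → pt u v t ∈ S) ∧
    ∀ h : MvPolynomial σ K, h.totalDegree ≤ D →
      (∀ t, v.eval t ≠ 0 → eval (pt u v t) h = 0) → ∀ z ∈ S, eval z h = 0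

theorem hom_poly {σ : Type} (u : σ → Polynomial K) (v : Polynomial K)
    (g : MvPolynomial σ K) {D : ℕ} (hD : g.totalDegree ≤ D) :
    ∃ G : Polynomial K, ∀ t, v.eval t ≠ 0 → G.eval t = v.eval t ^ D * eval (pt u v t) g := by
  obtain ⟨G, hG⟩ := exists_hom (K := K) u v g hD
  refine ⟨G, fun t ht => ?_⟩
  have := hG (Polynomial.aeval t) (by simpa using ht)
  simp only [Polynomial.coe_aeval_eq_eval] at this
  exact this

theorem hom_mv {σ τ : Type} (a : τ → MvPolynomial σ K) (c : MvPolynomial σ K)
    (g : MvPolynomial τ K) {D : ℕ} (hD : g.totalDegree ≤ D) :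
    ∃ G : MvPolynomial σ K, ∀ x, eval x c ≠ 0 →
      eval x G = eval x c ^ D * eval (fun j => eval x (a j) / eval x c) g := by
  obtain ⟨G, hG⟩ := exists_hom (K := K) a c g hD
  refine ⟨G, fun x hx => ?_⟩
  have := hG (MvPolynomial.aeval x) (by simpa [MvPolynomial.coe_aeval_eq_eval] using hx)
  simpa [MvPolynomial.coe_aeval_eq_eval] using this

end Pool.Agent.Q168.RC
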