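import Mathlib

/-!
# Points of elliptic curves over the rational function field: degrees under duplication (helper168)
-/

set_option autoImplicit false

open Polynomial

namespace Pool.Agent.Q168.RC

variable {K : Type} [Field K]

/-- The point `x = u / v` (in lowest terms), `y = s / r` of the curve
`D(T) y² = x³ + A(T) x + B(T)` over the rational function field `K(T)`. -/
def Pnt (D A B u v s r : K[X]) : Prop :=
  v ≠ 0 ∧ r ≠ 0 ∧ IsCoprime u v ∧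
    D * s ^ 2 * v ^ 3 = (u ^ 3 + A * u * v ^ 2 + B * v ^ 3) * r ^ 2

theorem nd_add {p q : K[X]} {n : ℕ} (hp : p.natDegree ≤ n) (hq : q.natDegree ≤ n) :
    (p + q).natDegree ≤ n := (natDegree_add_le _ _).trans (max_le hp hq)

theorem nd_sub {p q : K[X]} {n : ℕ} (hp : p.natDegree ≤ n) (hq : q.natDegree ≤ n) :
    (p - q).natDegree ≤ n := (natDegree_sub_le _ _).trans (max_le hp hq)

theorem nd_mul {p q : K[X]} {a b n : ℕ} (hp : p.natDegree ≤ a) (hq : q.natDegree ≤ b)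
    (h : a + b ≤ n) : (p * q).natDegree ≤ n :=
  natDegree_mul_le.trans ((add_le_add hp hq).trans h)

theorem nd_pow {p : K[X]} {a n : ℕ} (k : ℕ) (hp : p.natDegree ≤ a) (h : k * a ≤ n) :
    (p ^ k).natDegree ≤ n :=
  natDegree_pow_le.trans ((Nat.mul_le_mul_left _ hp).trans h)

theorem nd_num {n : ℕ} (k : ℕ) : ((k : K[X])).natDegree ≤ n := by
  rw [natDegree_natCast]
  exact Nat.zero_le _

theorem exists_gcd {N M : K[X]} (h : ¬ (N = 0 ∧ M = 0)) : ∃ g u v : K[X], g ≠ 0 ∧ N = g * u ∧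
    M = g * v ∧ IsCoprime u v := by
  classical
  obtain ⟨u, hu⟩ := EuclideanDomain.gcd_dvd_left N M
  obtain ⟨v, hv⟩ := EuclideanDomain.gcd_dvd_right N M
  have hg : EuclideanDomain.gcd N M ≠ 0 := by
    intro h0
    rw [h0, zero_mul] at hu hv
    exact h ⟨hu, hv⟩
  refine ⟨EuclideanDomain.gcd N M, u, v, hg, hu, hv, ?_⟩
  refine ⟨EuclideanDomain.gcdA N M, EuclideanDomain.gcdB N M, ?_⟩
  have h1 := EuclideanDomain.gcd_eq_gcd_ab N M
  apply mul_left_cancel₀ hg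
  rw [mul_one]
  calc _ = (EuclideanDomain.gcd N M * u) * EuclideanDomain.gcdA N M +
      (EuclideanDomain.gcd N M * v) * EuclideanDomain.gcdB N M := by ring
    _ = N * EuclideanDomain.gcdA N M + M * EuclideanDomain.gcdB N M := by rw [← hu, ← hv]
    _ = _ := h1.symm

variable [CharZero K]

theorem dup {D A B u v s r : K[X]} {m : ℕ} (hΔ : 4 * A ^ 3 + 27 * B ^ 2 ≠ 0)
    (hA : A.natDegree ≤ m) (hB : B.natDegree ≤ m) (h : Pnt D A B u v s r)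
    (hh : 5 * m < 3 * max u.natDegree v.natDegree) :
    ∃ u' v' s' r', Pnt D A B u' v' s' r' ∧
      4 * max u.natDegree v.natDegree ≤ max u'.natDegree v'.natDegree + 5 * m := by
  obtain ⟨hv, hr, hcop, heq⟩ := h
  set hu' := max u.natDegree v.natDegree with hhdef
  have hul : u.natDegree ≤ hu' := le_max_left _ _
  have hvl : v.natDegree ≤ hu' := le_max_right _ _
  have h4 : (4 : K[X]) ≠ 0 := by norm_num
  have hΔ4 : 4 * (4 * A ^ 3 + 27 * B ^ 2) ≠ 0 := mul_ne_zero h4 hΔ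
  set N : K[X] := u ^ 4 - 2 * A * u ^ 2 * v ^ 2 - 8 * B * u * v ^ 3 + A ^ 2 * v ^ 4 with hN
  set M : K[X] := 4 * (u ^ 3 * v + A * u * v ^ 3 + B * v ^ 4) with hM
  have id1 : (12 * u ^ 2 * v + 16 * A * v ^ 3) * N -
      (3 * u ^ 3 - 5 * A * u * v ^ 2 - 27 * B * v ^ 3) * M =
      4 * (4 * A ^ 3 + 27 * B ^ 2) * v ^ 7 := by
    rw [hN, hM]; ring
  have id2 : (4 * (4 * A ^ 3 + 27 * B ^ 2) * u ^ 3 - 4 * A ^ 2 * B * u ^ 2 * v +
      4 * A * (3 * A ^ 3 + 22 * B ^ 2) * u * v ^ 2 + 12 * B * (A ^ 3 + 8 * B ^ 2) * v ^ 3) * N +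
      (A ^ 2 * B * u ^ 3 + A * (5 * A ^ 3 + 32 * B ^ 2) * u ^ 2 * v +
      2 * B * (13 * A ^ 3 + 96 * B ^ 2) * u * v ^ 2 - 3 * A ^ 2 * (A ^ 3 + 8 * B ^ 2) * v ^ 3) * M =
      4 * (4 * A ^ 3 + 27 * B ^ 2) * u ^ 7 := by
    rw [hN, hM]; ring
  -- degrees of the coefficients
  have n3 : (3 : K[X]).natDegree ≤ 0 := nd_num 3
  have n2 : (2 : K[X]).natDegree ≤ 0 := nd_num 2
  have n4 : (4 : K[X]).natDegree ≤ 0 := nd_num 4
  have n5 : (5 : K[X]).natDegree ≤ 0 := nd_num 5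
  have n8 : (8 : K[X]).natDegree ≤ 0 := nd_num 8
  have n12 : (12 : K[X]).natDegree ≤ 0 := nd_num 12
  have n13 : (13 : K[X]).natDegree ≤ 0 := nd_num 13
  have n16 : (16 : K[X]).natDegree ≤ 0 := nd_num 16
  have n22 : (22 : K[X]).natDegree ≤ 0 := nd_num 22
  have n27 : (27 : K[X]).natDegree ≤ 0 := nd_num 27
  have n32 : (32 : K[X]).natDegree ≤ 0 := nd_num 32
  have n96 : (96 : K[X]).natDegree ≤ 0 := nd_num 96
  have pA2 : (A ^ 2).natDegree ≤ 2 * m := nd_pow 2 hA le_rfl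
  have pA3 : (A ^ 3).natDegree ≤ 3 * m := nd_pow 3 hA le_rfl
  have pB2 : (B ^ 2).natDegree ≤ 2 * m := nd_pow 2 hB le_rfl
  have pu2 : (u ^ 2).natDegree ≤ 2 * hu' := nd_pow 2 hul le_rfl
  have pu3 : (u ^ 3).natDegree ≤ 3 * hu' := nd_pow 3 hul le_rfl
  have pv2 : (v ^ 2).natDegree ≤ 2 * hu' := nd_pow 2 hvl le_rfl
  have pv3 : (v ^ 3).natDegree ≤ 3 * hu' := nd_pow 3 hvl le_rfl
  have c1 : (12 * u ^ 2 * v + 16 * A * v ^ 3).natDegree ≤ 3 * hu' + m :=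
    nd_add (nd_mul (nd_mul n12 pu2 le_rfl) hvl (by omega))
      (nd_mul (nd_mul n16 hA le_rfl) pv3 (by omega))
  have c2 : (3 * u ^ 3 - 5 * A * u * v ^ 2 - 27 * B * v ^ 3).natDegree ≤ 3 * hu' + m :=
    nd_sub (nd_sub (nd_mul n3 pu3 (by omega))
      (nd_mul (nd_mul (nd_mul n5 hA le_rfl) hul le_rfl) pv2 (by omega)))
      (nd_mul (nd_mul n27 hB le_rfl) pv3 (by omega))
  have d1 : (4 * (4 * A ^ 3 + 27 * B ^ 2)).natDegree ≤ 3 * m :=
    nd_mul n4 (nd_add (nd_mul n4 pA3 (by omega)) (nd_mul (b := 2 * m) n27 pB2 (by omega)))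
      (n := 3 * m) (b := 3 * m) (by omega)
  have d2 : (3 * A ^ 3 + 22 * B ^ 2).natDegree ≤ 3 * m :=
    nd_add (nd_mul n3 pA3 (by omega)) (nd_mul n22 pB2 (by omega))
  have d3 : (A ^ 3 + 8 * B ^ 2).natDegree ≤ 3 * m :=
    nd_add pA3 (nd_mul n8 pB2 (by omega))
  have d4 : (5 * A ^ 3 + 32 * B ^ 2).natDegree ≤ 3 * m :=
    nd_add (nd_mul n5 pA3 (by omega)) (nd_mul n32 pB2 (by omega))
  have d5 : (13 * A ^ 3 + 96 * B ^ 2).natDegree ≤ 3 * m :=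
    nd_add (nd_mul n13 pA3 (by omega)) (nd_mul n96 pB2 (by omega))
  have c3 : (4 * (4 * A ^ 3 + 27 * B ^ 2) * u ^ 3 - 4 * A ^ 2 * B * u ^ 2 * v +
      4 * A * (3 * A ^ 3 + 22 * B ^ 2) * u * v ^ 2 +
      12 * B * (A ^ 3 + 8 * B ^ 2) * v ^ 3).natDegree ≤ 3 * hu' + 5 * m :=
    nd_add (nd_add (nd_sub (nd_mul d1 pu3 (by omega))
      (nd_mul (nd_mul (nd_mul (nd_mul n4 pA2 le_rfl) hB le_rfl) pu2 le_rfl) hvl (by omega)))
      (nd_mul (nd_mul (nd_mul (nd_mul n4 hA le_rfl) d2 le_rfl) hul le_rfl) pv2 (by omega)))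
      (nd_mul (nd_mul (nd_mul n12 hB le_rfl) d3 le_rfl) pv3 (by omega))
  have c4 : (A ^ 2 * B * u ^ 3 + A * (5 * A ^ 3 + 32 * B ^ 2) * u ^ 2 * v +
      2 * B * (13 * A ^ 3 + 96 * B ^ 2) * u * v ^ 2 -
      3 * A ^ 2 * (A ^ 3 + 8 * B ^ 2) * v ^ 3).natDegree ≤ 3 * hu' + 5 * m :=
    nd_sub (nd_add (nd_add (nd_mul (nd_mul pA2 hB le_rfl) pu3 (by omega))
      (nd_mul (nd_mul (nd_mul hA d4 le_rfl) pu2 le_rfl) hvl (by omega)))
      (nd_mul (nd_mul (nd_mul (nd_mul n2 hB le_rfl) d5 le_rfl) hul le_rfl) pv2 (by omega)))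
      (nd_mul (nd_mul (nd_mul n3 pA2 le_rfl) d3 le_rfl) pv3 (by omega))
  -- the greatest common divisor
  obtain ⟨g, u', v', hg, hgu, hgv, hcop'⟩ := exists_gcd (N := N) (M := M) (by
    rintro ⟨h0, h1⟩
    rw [h0, h1, mul_zero, mul_zero, sub_zero] at id1
    exact mul_ne_zero hΔ4 (pow_ne_zero 7 hv) id1.symm)
  have hgΔ : g ∣ 4 * (4 * A ^ 3 + 27 * B ^ 2) := by
    obtain ⟨a, b, hab⟩ := IsCoprime.pow (m := 7) (n := 7) hcop
    have h1 : 4 * (4 * A ^ 3 + 27 * B ^ 2) = a * (4 * (4 * A ^ 3 + 27 * B ^ 2) * u ^ 7) +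
        b * (4 * (4 * A ^ 3 + 27 * B ^ 2) * v ^ 7) := by
      calc _ = 4 * (4 * A ^ 3 + 27 * B ^ 2) * 1 := by ring
        _ = 4 * (4 * A ^ 3 + 27 * B ^ 2) * (a * u ^ 7 + b * v ^ 7) := by rw [hab]
        _ = _ := by ring
    rw [h1, ← id1, ← id2]
    have hN' : g ∣ N := ⟨u', hgu⟩
    have hM' : g ∣ M := ⟨v', hgv⟩
    exact dvd_add (Dvd.dvd.mul_left (dvd_add (Dvd.dvd.mul_left hN' _) (Dvd.dvd.mul_left hM' _)) _)
      (Dvd.dvd.mul_left (dvd_sub (Dvd.dvd.mul_left hN' _) (Dvd.dvd.mul_left hM' _)) _)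
  have hgd : g.natDegree ≤ (4 * (4 * A ^ 3 + 27 * B ^ 2)).natDegree :=
    natDegree_le_of_dvd hgΔ hΔ4
  set δ := (4 * (4 * A ^ 3 + 27 * B ^ 2)).natDegree with hδ
  have hNd : N.natDegree ≤ g.natDegree + max u'.natDegree v'.natDegree := by
    rw [hgu]
    exact natDegree_mul_le.trans (Nat.add_le_add_left (le_max_left _ _) _)
  have hMd : M.natDegree ≤ g.natDegree + max u'.natDegree v'.natDegree := by
    rw [hgv]
    exact natDegree_mul_le.trans (Nat.add_le_add_left (le_max_right _ _) _)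
  have key : 4 * hu' ≤ max u'.natDegree v'.natDegree + 5 * m := by
    rcases le_total u.natDegree v.natDegree with hle | hle
    · have e1 : hu' = v.natDegree := max_eq_right hle
      have e2 : (4 * (4 * A ^ 3 + 27 * B ^ 2) * v ^ 7).natDegree = δ + 7 * v.natDegree := by
        rw [natDegree_mul hΔ4 (pow_ne_zero 7 hv), natDegree_pow]
      have e3 : (4 * (4 * A ^ 3 + 27 * B ^ 2) * v ^ 7).natDegree ≤
          3 * hu' + m + (g.natDegree + max u'.natDegree v'.natDegree) := by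
        rw [← id1]
        exact nd_sub (nd_mul c1 hNd le_rfl) (nd_mul c2 hMd le_rfl)
      omega
    · have e1 : hu' = u.natDegree := max_eq_left hle
      have hu0 : u ≠ 0 := by
        rintro rfl
        rw [natDegree_zero] at e1
        omega
      have e2 : (4 * (4 * A ^ 3 + 27 * B ^ 2) * u ^ 7).natDegree = δ + 7 * u.natDegree := by
        rw [natDegree_mul hΔ4 (pow_ne_zero 7 hu0), natDegree_pow]
      have e3 : (4 * (4 * A ^ 3 + 27 * B ^ 2) * u ^ 7).natDegree ≤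
          3 * hu' + 5 * m + (g.natDegree + max u'.natDegree v'.natDegree) := by
        rw [← id2]
        exact nd_add (nd_mul c3 hNd le_rfl) (nd_mul c4 hMd le_rfl)
      omega
  have hv' : v' ≠ 0 := by
    rintro rfl
    have h1 : IsUnit u' := isCoprime_zero_right.1 hcop'
    rw [natDegree_eq_zero_of_isUnit h1, natDegree_zero] at key
    simp only [max_self] at key
    omega
  set Φ : K[X] := u ^ 3 + A * u * v ^ 2 + B * v ^ 3 with hΦ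
  have hMΦ : M = 4 * v * Φ := by rw [hM, hΦ]; ring
  have hΦ0 : Φ ≠ 0 := by
    intro h0
    rw [hMΦ, h0, mul_zero] at hgv
    exact mul_ne_zero hg hv' hgv.symm
  refine ⟨u', v', s * (u ^ 6 + 5 * A * u ^ 4 * v ^ 2 + 20 * B * u ^ 3 * v ^ 3 -
    5 * A ^ 2 * u ^ 2 * v ^ 4 - 4 * A * B * u * v ^ 5 - 8 * B ^ 2 * v ^ 6 - A ^ 3 * v ^ 6),
    8 * r * Φ ^ 2, ⟨hv', ?_, hcop', ?_⟩, key⟩
  · exact mul_ne_zero (mul_ne_zero (by norm_num) hr) (pow_ne_zero 2 hΦ0)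
  · apply mul_left_cancel₀ (pow_ne_zero 3 hg)
    have e1 : g ^ 3 * (D * (s * (u ^ 6 + 5 * A * u ^ 4 * v ^ 2 + 20 * B * u ^ 3 * v ^ 3 -
        5 * A ^ 2 * u ^ 2 * v ^ 4 - 4 * A * B * u * v ^ 5 - 8 * B ^ 2 * v ^ 6 -
        A ^ 3 * v ^ 6)) ^ 2 * v' ^ 3) = D * (s * (u ^ 6 + 5 * A * u ^ 4 * v ^ 2 +
        20 * B * u ^ 3 * v ^ 3 - 5 * A ^ 2 * u ^ 2 * v ^ 4 - 4 * A * B * u * v ^ 5 -
        8 * B ^ 2 * v ^ 6 - A ^ 3 * v ^ 6)) ^ 2 * M ^ 3 := by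
      rw [hgv]; ring
    have e2 : g ^ 3 * ((u' ^ 3 + A * u' * v' ^ 2 + B * v' ^ 3) * (8 * r * Φ ^ 2) ^ 2) =
        (N ^ 3 + A * N * M ^ 2 + B * M ^ 3) * (8 * r * Φ ^ 2) ^ 2 := by
      rw [hgu, hgv]; ring
    have e3 : N ^ 3 + A * N * M ^ 2 + B * M ^ 3 = (u ^ 6 + 5 * A * u ^ 4 * v ^ 2 +
        20 * B * u ^ 3 * v ^ 3 - 5 * A ^ 2 * u ^ 2 * v ^ 4 - 4 * A * B * u * v ^ 5 -
        8 * B ^ 2 * v ^ 6 - A ^ 3 * v ^ 6) ^ 2 := by
      rw [hMΦ, hN, hΦ]; ring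
    rw [e1, e2, e3, hMΦ]
    linear_combination (64 * Φ ^ 3 * (u ^ 6 + 5 * A * u ^ 4 * v ^ 2 + 20 * B * u ^ 3 * v ^ 3 -
        5 * A ^ 2 * u ^ 2 * v ^ 4 - 4 * A * B * u * v ^ 5 - 8 * B ^ 2 * v ^ 6 -
        A ^ 3 * v ^ 6) ^ 2) * heq

/-- **Points of large degree.** -/
theorem points_unbounded {D A B u v s r : K[X]} {m : ℕ} (hΔ : 4 * A ^ 3 + 27 * B ^ 2 ≠ 0)
    (hA : A.natDegree ≤ m) (hB : B.natDegree ≤ m) (h : Pnt D A B u v s r)
    (hh : 5 * m < 3 * max u.natDegree v.natDegree) (n : ℕ) :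
    ∃ u' v' s' r', Pnt D A B u' v' s' r' ∧ 5 * m < 3 * max u'.natDegree v'.natDegree ∧
      n ≤ max u'.natDegree v'.natDegree := by
  induction n with
  | zero => exact ⟨u, v, s, r, h, hh, Nat.zero_le _⟩
  | succ n ih =>
    obtain ⟨u', v', s', r', h1, h2, h3⟩ := ih
    obtain ⟨u'', v'', s'', r'', h4, h5⟩ := dup hΔ hA hB h1 h2
    exact ⟨u'', v'', s'', r'', h4, by omega, by omega⟩

end Pool.Agent.Q168.RC
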