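import Pool.Agent.Q168.RC.Rep
import Pool.Agent.Q168.RC.CurveDef

/-!
# Elliptic surfaces with a point of large degree (helper168)
-/

set_option autoImplicit false

open Polynomial

namespace Pool.Agent.Q168.RC

variable {K : Type} [Field K] [CharZero K]

/-- The points over `K` of the elliptic surface `D(t) y² = x³ + A(t) x + B(t)`, without the fibres
over the roots of `D`. -/
def EllSurf (D A B : K[X]) : Set (Fin 3 → K) :=
  {z | D.eval (z 0) ≠ 0 ∧
    D.eval (z 0) * z 2 ^ 2 = z 1 ^ 3 + A.eval (z 0) * z 1 + B.eval (z 0)}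

/-- **An elliptic surface with a point of large degree over `K(t)` has rational curves of unbounded
degree.** -/
theorem EllSurf.curved {D A B : K[X]} (hD : D ≠ 0) (hΔ : 4 * A ^ 3 + 27 * B ^ 2 ≠ 0)
    {u v s r : K[X]} (h : Pnt D A B u v s r)
    (hh : 5 * max A.natDegree B.natDegree < 3 * max u.natDegree v.natDegree) :
    Curved (EllSurf D A B) := by
  intro d
  set m := max A.natDegree B.natDegree with hm
  set e := D.natDegree with he
  have hA : A.natDegree ≤ m := le_max_left _ _
  have hB : B.natDegree ≤ m := le_max_right _ _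
  set n := d * (1 + m + e) with hn
  obtain ⟨u, v, s, r, ⟨hv, hr, hcop, heq⟩, -, hbig⟩ :=
    points_unbounded hΔ hA hB h hh (2 * n + e + m + 1)
  set V : K[X] := v * r * D with hV
  have hV0 : V ≠ 0 := mul_ne_zero (mul_ne_zero hv hr) hD
  have hpt : ∀ t, V.eval t ≠ 0 → v.eval t ≠ 0 ∧ r.eval t ≠ 0 ∧ D.eval t ≠ 0 ∧
      pt ![X * V, u * r * D, s * v * D] V t =
        ![t, u.eval t / v.eval t, s.eval t / r.eval t] := by
    intro t ht
    have h1 := ht
    rw [hV, eval_mul, eval_mul, mul_ne_zero_iff, mul_ne_zero_iff] at h1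
    obtain ⟨⟨h2, h3⟩, h4⟩ := h1
    refine ⟨h2, h3, h4, ?_⟩
    funext i
    fin_cases i
    · simp [pt, mul_div_cancel_right₀ _ ht]
    · simp only [pt, hV]
      simp only [Fin.mk_one, Matrix.cons_val_one, Matrix.cons_val_zero, eval_mul]
      field_simp
    · simp only [pt, hV]
      simp only [Fin.reduceFinMk, Matrix.cons_val, eval_mul]
      field_simp
  have hmem : ∀ t, V.eval t ≠ 0 → D.eval t * (s.eval t / r.eval t) ^ 2 =
      (u.eval t / v.eval t) ^ 3 + A.eval t * (u.eval t / v.eval t) + B.eval t := by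
    intro t ht
    obtain ⟨h2, h3, -, -⟩ := hpt t ht
    have h5 := congrArg (eval t) heq
    simp only [eval_mul, eval_add, eval_pow] at h5
    field_simp
    linear_combination h5
  refine ⟨![X * V, u * r * D, s * v * D], V, hV0, ?_, ?_⟩
  · intro t ht
    obtain ⟨h2, h3, h4, h5⟩ := hpt t ht
    rw [h5]
    refine ⟨h4, ?_⟩
    simpa using hmem t ht
  · intro g hg hvan z hz
    obtain ⟨α, β, hα, hβ, hαβ⟩ := rep (D := D) hA hB le_rfl g hg
    have hN : C D * α ^ 2 - β ^ 2 * cub A B = 0 := by
      by_contra hN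
      have htd : Td (C D * α ^ 2 - β ^ 2 * cub A B) (2 * n + e + m) :=
        ((Td.C (n := e) le_rfl).mul (hα.pow 2 (le_refl (2 * n))) (by omega)).sub
          ((hβ.pow 2 (le_refl (2 * n))).mul (cub_td hA hB) (by omega))
      have h6 := root_bound hN htd hcop hv hV0 (fun t ht => by
        obtain ⟨h2, h3, h4, h5⟩ := hpt t ht
        refine ⟨h2, ?_⟩
        have h7 := hαβ t _ _ (hmem t ht)
        have h8 := hvan t ht
        rw [h5] at h8
        rw [h8, mul_zero] at h7
        rw [ev_sub, ev_mul, ev_mul, ev_C, ev_pow, ev_pow, cub_ev, ← hmem t ht]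
        linear_combination (-(D.eval t) * (ev t (u.eval t / v.eval t) α -
          ev t (u.eval t / v.eval t) β * (s.eval t / r.eval t))) * h7)
      omega
    have hβ0 : β = 0 := by
      by_contra hβ0
      have h6 : C D * α ^ 2 = β ^ 2 * cub A B := sub_eq_zero.1 hN
      have hα0 : α ≠ 0 := by
        rintro rfl
        rw [zero_pow two_ne_zero, mul_zero] at h6
        exact mul_ne_zero (pow_ne_zero 2 hβ0) (cub_ne A B) h6.symm
      have h7 := congrArg natDegree h6
      rw [natDegree_C_mul hD, natDegree_pow, natDegree_mul (pow_ne_zero 2 hβ0) (cub_ne A B),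
        natDegree_pow, cub_natDegree] at h7
      omega
    have hα0 : α = 0 := by
      rw [hβ0, zero_pow two_ne_zero, zero_mul, sub_zero, mul_eq_zero] at hN
      rcases hN with h6 | h6
      · exact absurd (C_eq_zero.1 h6) hD
      · exact pow_eq_zero_iff two_ne_zero |>.1 h6
    have h9 := hαβ (z 0) (z 1) (z 2) hz.2
    rw [hα0, hβ0, ev_zero, zero_mul, add_zero, mul_eq_zero] at h9
    have h10 := h9.resolve_left (pow_ne_zero _ hz.1)
    have h11 : (![z 0, z 1, z 2] : Fin 3 → K) = z := by
      funext i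
      fin_cases i <;> rfl
    rwa [h11] at h10

end Pool.Agent.Q168.RC
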