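import Pool.Agent.Q168.RC.Image
import Pool.Agent.Q168.RC.Ell

/-!
# Examples of good sets (helper168)
-/

set_option autoImplicit false

namespace Pool.Agent.Q168.RC

theorem good_ell (K : Type) [Field K] [CharZero K] (D A B u v s r : Polynomial K) (hD : D ≠ 0)
    (hΔ : 4 * A ^ 3 + 27 * B ^ 2 ≠ 0) (h : Pnt D A B u v s r)
    (hh : 5 * max A.natDegree B.natDegree < 3 * max u.natDegree v.natDegree) :
    Good K (EllSurf D A B) :=
  Good.curved (EllSurf.curved hD hΔ h hh)

theorem good_kummer (K : Type) [Field K] [CharZero K] (c d : K) (hcd : 4 * c ^ 3 + 27 * d ^ 2 ≠ 0) :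
    Good K {z : Fin 3 → K | z 0 ^ 3 + c * z 0 + d ≠ 0 ∧
      (z 0 ^ 3 + c * z 0 + d) * z 2 ^ 2 = z 1 ^ 3 + c * z 1 + d} := by
  have hD : (Polynomial.X ^ 3 + Polynomial.C c * Polynomial.X + Polynomial.C d :
      Polynomial K) ≠ 0 := by
    have h1 : (Polynomial.X ^ 3 + Polynomial.C c * Polynomial.X + Polynomial.C d :
        Polynomial K).natDegree = 3 := by compute_degree!
    intro h0
    rw [h0, Polynomial.natDegree_zero] at h1
    omega
  have h1 := Good.curved (EllSurf.curved (K := K)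
    (D := Polynomial.X ^ 3 + Polynomial.C c * Polynomial.X + Polynomial.C d)
    (A := Polynomial.C c) (B := Polynomial.C d) (u := Polynomial.X) (v := 1) (s := 1) (r := 1)
    hD (by
      intro h0
      apply hcd
      have h2 := congrArg (Polynomial.eval 0) h0
      simpa using h2)
    ⟨one_ne_zero, one_ne_zero, isCoprime_one_right, by ring⟩ (by simp))
  have h2 : EllSurf (Polynomial.X ^ 3 + Polynomial.C c * Polynomial.X + Polynomial.C d)
      (Polynomial.C c) (Polynomial.C d) = {z : Fin 3 → K | z 0 ^ 3 + c * z 0 + d ≠ 0 ∧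
      (z 0 ^ 3 + c * z 0 + d) * z 2 ^ 2 = z 1 ^ 3 + c * z 1 + d} := by
    ext z
    simp [EllSurf]
  rwa [h2] at h1

end Pool.Agent.Q168.RC
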