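import Pool.Agent.Q168.RC.Td

/-!
# Reduction modulo the equation of an elliptic surface (helper168)
-/

set_option autoImplicit false

open Polynomial

namespace Pool.Agent.Q168.RC

variable {K : Type} [Field K]

/-- `x³ + A(t) x + B(t)` -/
noncomputable def cub (A B : K[X]) : K[X][X] := X ^ 3 + C A * X + C B

theorem cub_td {A B : K[X]} {m : ℕ} (hA : A.natDegree ≤ m) (hB : B.natDegree ≤ m) :
    Td (cub A B) m := by
  have h1 : Td (X : K[X][X]) 0 := by
    have := Td.Xpow (K := K) 1 0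
    rwa [pow_one] at this
  exact ((Td.Xpow 3 m).add ((Td.C hA).mul h1 le_rfl)).add (Td.C hB)

theorem cub_ev (A B : K[X]) (t x : K) :
    ev t x (cub A B) = x ^ 3 + A.eval t * x + B.eval t := by
  rw [cub, ev_add, ev_add, ev_mul, ev_pow, ev_C, ev_C, ev_X]

theorem cub_natDegree (A B : K[X]) : (cub A B).natDegree = 3 := by
  unfold cub
  compute_degree!

theorem cub_ne (A B : K[X]) : cub A B ≠ 0 := by
  intro h
  have := cub_natDegree A B
  rw [h, natDegree_zero] at this
  omega

theorem rep {D A B : K[X]} {m e : ℕ} (hA : A.natDegree ≤ m) (hB : B.natDegree ≤ m)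
    (hD : D.natDegree ≤ e) (h : MvPolynomial (Fin 3) K) {d : ℕ} (hd : h.totalDegree ≤ d) :
    ∃ α β : K[X][X], Td α (d * (1 + m + e)) ∧ Td β (d * (1 + m + e)) ∧
      ∀ t x y : K, D.eval t * y ^ 2 = x ^ 3 + A.eval t * x + B.eval t →
        D.eval t ^ d * MvPolynomial.eval ![t, x, y] h = ev t x α + ev t x β * y := by
  classical
  set base : (Fin 3 →₀ ℕ) → K[X][X] := fun s =>
    C (C (MvPolynomial.coeff s h) * X ^ s 0 * D ^ (d - s 2 / 2)) * X ^ s 1 *
      cub A B ^ (s 2 / 2) with hbase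
  have hs : ∀ s ∈ h.support, s 0 + s 1 + s 2 ≤ d := by
    intro s hs
    have h1 := (MvPolynomial.le_totalDegree hs).trans hd
    rw [Finsupp.sum_fintype _ _ (fun _ => rfl), Fin.sum_univ_three] at h1
    exact h1
  have htd : ∀ s ∈ h.support, Td (base s) (d * (1 + m + e)) := by
    intro s hs'
    have h1 := hs s hs'
    have h2 : s 0 ≤ d := by omega
    have h3 : s 2 / 2 ≤ d := (Nat.div_le_self _ _).trans (by omega)
    have h4 : (C (MvPolynomial.coeff s h) * X ^ s 0 * D ^ (d - s 2 / 2)).natDegree ≤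
        d + d * e := by
      refine nd_mul (nd_mul (a := 0) (b := d) (natDegree_C _).le ?_ (by omega))
        (nd_pow _ hD (Nat.mul_le_mul_right e (Nat.sub_le _ _))) le_rfl
      exact (natDegree_X_pow_le _).trans h2
    have h5 : Td (cub A B ^ (s 2 / 2)) (d * m) := (cub_td hA hB).pow _ (Nat.mul_le_mul_right m h3)
    exact (((Td.C h4).mul (Td.Xpow _ 0) le_rfl).mul h5 (by
      have : d * (1 + m + e) = d + d * e + 0 + d * m := by ring
      omega))
  have hev : ∀ s ∈ h.support, ∀ t x y : K,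
      D.eval t * y ^ 2 = x ^ 3 + A.eval t * x + B.eval t →
      D.eval t ^ d * (MvPolynomial.coeff s h * (t ^ s 0 * x ^ s 1 * y ^ s 2)) =
        ev t x (base s) * y ^ (s 2 % 2) := by
    intro s hs' t x y hy
    have h1 := hs s hs'
    obtain ⟨j, hj⟩ : ∃ j, d = s 2 / 2 + j :=
      Nat.exists_eq_add_of_le ((Nat.div_le_self _ _).trans (by omega))
    have h2 : y ^ s 2 = (y ^ 2) ^ (s 2 / 2) * y ^ (s 2 % 2) := by
      rw [← pow_mul, ← pow_add, Nat.div_add_mod]
    rw [hbase]
    simp only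
    rw [ev_mul, ev_mul, ev_C, ev_pow, ev_pow, ev_X, cub_ev, eval_mul, eval_mul, eval_C, eval_pow,
      eval_pow, eval_X, ← hy, h2, mul_pow]
    have h3 : d - s 2 / 2 = j := by omega
    rw [h3]
    have h4 : D.eval t ^ d = D.eval t ^ (s 2 / 2) * D.eval t ^ j := by
      rw [← pow_add, ← hj]
    rw [h4]
    ring
  refine ⟨∑ s ∈ h.support, if s 2 % 2 = 0 then base s else 0,
    ∑ s ∈ h.support, if s 2 % 2 = 0 then 0 else base s, ?_, ?_, ?_⟩
  · refine Td.sum _ _ fun s hs' => ?_
    split_ifs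
    · exact htd s hs'
    · exact Td.zero _
  · refine Td.sum _ _ fun s hs' => ?_
    split_ifs
    · exact Td.zero _
    · exact htd s hs'
  · intro t x y hy
    rw [MvPolynomial.eval_eq', ev_sum, ev_sum, Finset.mul_sum, Finset.sum_mul,
      ← Finset.sum_add_distrib]
    refine Finset.sum_congr rfl fun s hs' => ?_
    have h1 := hev s hs' t x y hy
    rw [Fin.prod_univ_three]
    simp only [Matrix.cons_val_zero, Matrix.cons_val_one, Matrix.cons_val]
    rw [h1]
    by_cases h2 : s 2 % 2 = 0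
    · rw [if_pos h2, if_pos h2, h2, ev_zero]
      ring
    · have h3 : s 2 % 2 = 1 := by omega
      rw [if_neg h2, if_neg h2, h3, ev_zero]
      ring

end Pool.Agent.Q168.RC
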