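import Pool.Agent.Q168.RC.Dup

/-!
# Polynomials in two variables with bounded degree in the first one (helper168)
-/

set_option autoImplicit false

open Polynomial

namespace Pool.Agent.Q168.RC

variable {K : Type} [Field K]

/-- all coefficients have degree at most `n` -/
def Td (P : K[X][X]) (n : ℕ) : Prop := ∀ i, (P.coeff i).natDegree ≤ n

theorem Td.mono {P : K[X][X]} {a b : ℕ} (h : Td P a) (hab : a ≤ b) : Td P b :=
  fun i => (h i).trans hab

theorem Td.zero (n : ℕ) : Td (0 : K[X][X]) n := fun i => by simp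

theorem Td.add {P Q : K[X][X]} {n : ℕ} (hP : Td P n) (hQ : Td Q n) : Td (P + Q) n := fun i => by
  rw [coeff_add]
  exact nd_add (hP i) (hQ i)

theorem Td.sub {P Q : K[X][X]} {n : ℕ} (hP : Td P n) (hQ : Td Q n) : Td (P - Q) n := fun i => by
  rw [coeff_sub]
  exact nd_sub (hP i) (hQ i)

theorem Td.sum {ι : Type} (s : Finset ι) (P : ι → K[X][X]) {n : ℕ} (h : ∀ i ∈ s, Td (P i) n) :
    Td (∑ i ∈ s, P i) n := by
  classical
  induction s using Finset.induction_on with
  | empty => simpa using Td.zero n
  | insert a s ha ih =>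
    rw [Finset.sum_insert ha]
    exact (h a (Finset.mem_insert_self _ _)).add
      (ih fun i hi => h i (Finset.mem_insert_of_mem hi))

theorem Td.mul {P Q : K[X][X]} {a b n : ℕ} (hP : Td P a) (hQ : Td Q b) (hn : a + b ≤ n) :
    Td (P * Q) n := fun i => by
  rw [coeff_mul]
  exact natDegree_sum_le_of_forall_le _ _ fun j _ => nd_mul (hP j.1) (hQ j.2) hn

theorem Td.C {p : K[X]} {n : ℕ} (hp : p.natDegree ≤ n) : Td (Polynomial.C p) n := fun i => by
  rw [coeff_C]
  split_ifs
  · exact hp
  · simp

theorem Td.Xpow (k n : ℕ) : Td (Polynomial.X ^ k : K[X][X]) n := fun i => by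
  rw [coeff_X_pow]
  split_ifs <;> simp

theorem Td.pow {P : K[X][X]} {a n : ℕ} (k : ℕ) (hP : Td P a) (hn : k * a ≤ n) : Td (P ^ k) n := by
  have h : ∀ k, Td (P ^ k) (k * a) := by
    intro k
    induction k with
    | zero =>
      rw [pow_zero, ← Polynomial.C_1]
      exact Td.C (by simp)
    | succ k ih =>
      rw [pow_succ]
      exact ih.mul hP (by rw [Nat.succ_mul])
  exact (h k).mono hn

/-- value at `(t, x)` -/
noncomputable def ev (t x : K) (P : K[X][X]) : K := (P.map (evalRingHom t)).eval x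

theorem ev_add (t x : K) (P Q : K[X][X]) : ev t x (P + Q) = ev t x P + ev t x Q := by
  simp [ev]

theorem ev_sub (t x : K) (P Q : K[X][X]) : ev t x (P - Q) = ev t x P - ev t x Q := by
  simp [ev]

theorem ev_mul (t x : K) (P Q : K[X][X]) : ev t x (P * Q) = ev t x P * ev t x Q := by
  simp [ev]

theorem ev_pow (t x : K) (P : K[X][X]) (k : ℕ) : ev t x (P ^ k) = ev t x P ^ k := by
  simp [ev]

theorem ev_C (t x : K) (p : K[X]) : ev t x (Polynomial.C p) = p.eval t := by
  simp [ev]

theorem ev_X (t x : K) : ev t x (Polynomial.X) = x := by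
  simp [ev]

theorem ev_zero (t x : K) : ev t x (0 : K[X][X]) = 0 := by
  simp [ev]

theorem ev_sum {ι : Type} (s : Finset ι) (P : ι → K[X][X]) (t x : K) :
    ev t x (∑ i ∈ s, P i) = ∑ i ∈ s, ev t x (P i) := by
  classical
  induction s using Finset.induction_on with
  | empty => simp [ev]
  | insert a s ha ih => rw [Finset.sum_insert ha, Finset.sum_insert ha, ev_add, ih]

variable [CharZero K]

/-- **The rational root theorem for degrees.** -/
theorem root_bound {P : K[X][X]} (hP : P ≠ 0) {n : ℕ} (hn : Td P n) {u v W : K[X]}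
    (hc : IsCoprime u v) (hv : v ≠ 0) (hW : W ≠ 0)
    (h : ∀ t, W.eval t ≠ 0 → v.eval t ≠ 0 ∧ ev t (u.eval t / v.eval t) P = 0) :
    max u.natDegree v.natDegree ≤ n := by
  classical
  set k := P.natDegree with hk
  have hH : ∑ i ∈ Finset.range (k + 1), P.coeff i * u ^ i * v ^ (k - i) = 0 := by
    apply mul_right_cancel₀ hW
    rw [zero_mul]
    refine Polynomial.funext fun t => ?_
    rw [eval_mul, eval_zero]
    by_cases ht : W.eval t = 0
    · rw [ht, mul_zero]
    · obtain ⟨h1, h2⟩ := h t ht
      rw [eval_finset_sum]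
      have h3 : ∑ i ∈ Finset.range (k + 1), (P.coeff i * u ^ i * v ^ (k - i)).eval t =
          v.eval t ^ k * ev t (u.eval t / v.eval t) P := by
        rw [ev, eval_eq_sum_range' (n := k + 1)
          (Nat.lt_succ_of_le (natDegree_map_le)), Finset.mul_sum]
        refine Finset.sum_congr rfl fun i hi => ?_
        have hi' : i ≤ k := Nat.lt_succ_iff.1 (Finset.mem_range.1 hi)
        rw [coeff_map, coe_evalRingHom, eval_mul, eval_mul, eval_pow, eval_pow, div_pow]
        obtain ⟨j, hj⟩ := Nat.exists_eq_add_of_le hi'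
        rw [hj, Nat.add_sub_cancel_left, pow_add]
        have h4 : v.eval t ^ i ≠ 0 := pow_ne_zero _ h1
        field_simp
      rw [h3, h2, mul_zero, zero_mul]
  refine max_le ?_ ?_
  · by_cases hu : u = 0
    · rw [hu, natDegree_zero]
      exact Nat.zero_le _
    set j := P.natTrailingDegree with hj
    have hPj : P.coeff j ≠ 0 := by
      have := trailingCoeff_nonzero_iff_nonzero.2 hP
      exact this
    have hjk : j ≤ k := natTrailingDegree_le_natDegree P
    have h5 : u ^ (j + 1) ∣ P.coeff j * u ^ j * v ^ (k - j) := by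
      have hmem : j ∈ Finset.range (k + 1) := Finset.mem_range.2 (Nat.lt_succ_of_le hjk)
      rw [← Finset.add_sum_erase _ _ hmem] at hH
      rw [eq_neg_of_add_eq_zero_left hH, dvd_neg]
      refine Finset.dvd_sum fun i hi => ?_
      rw [Finset.mem_erase] at hi
      rcases lt_or_gt_of_ne hi.1 with h6 | h6
      · rw [coeff_eq_zero_of_lt_natTrailingDegree h6, zero_mul, zero_mul]
        exact dvd_zero _
      · exact Dvd.dvd.mul_right (Dvd.dvd.mul_left (pow_dvd_pow u h6) _) _
    have h6 : u ∣ P.coeff j * v ^ (k - j) := by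
      have h7 : u ^ j * u ∣ u ^ j * (P.coeff j * v ^ (k - j)) := by
        rw [← pow_succ]
        convert h5 using 1
        ring
      exact (mul_dvd_mul_iff_left (pow_ne_zero j hu)).1 h7
    have h7 : u ∣ P.coeff j := (IsCoprime.pow_right hc).dvd_of_dvd_mul_right h6
    exact (natDegree_le_of_dvd h7 hPj).trans (hn j)
  · have hPk : P.coeff k ≠ 0 := by
      have := leadingCoeff_ne_zero.2 hP
      exact this
    have h5 : v ∣ P.coeff k * u ^ k := by
      rw [Finset.sum_range_succ, Nat.sub_self, pow_zero, mul_one] at hH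
      rw [eq_neg_of_add_eq_zero_right hH, dvd_neg]
      refine Finset.dvd_sum fun i hi => ?_
      exact Dvd.dvd.mul_left (dvd_pow_self v (Nat.sub_ne_zero_of_lt (Finset.mem_range.1 hi))) _
    have h7 : v ∣ P.coeff k := (IsCoprime.pow_right hc.symm).dvd_of_dvd_mul_right h5
    exact (natDegree_le_of_dvd h7 hPk).trans (hn k)

end Pool.Agent.Q168.RC
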